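import Mathlib

set_option autoImplicit false
set_option linter.unusedSectionVars false
set_option linter.unusedVariables false
set_option linter.style.haveILetI false

open Set Filter Topology

namespace Pool.Agent.Helper90.Free

/-- `t + min t h` -/
noncomputable def om (h t : ℝ) : ℝ := t + min t h

theorem om_zero {h : ℝ} (hh : 0 ≤ h) : om h 0 = 0 := by simp [om, hh]

theorem om_mono (h : ℝ) {s t : ℝ} (hst : s ≤ t) : om h s ≤ om h t :=
  add_le_add hst (min_le_min_right h hst)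

theorem le_om {h t : ℝ} (hh : 0 ≤ h) (ht : 0 ≤ t) : t ≤ om h t := by
  have : 0 ≤ min t h := le_min ht hh
  unfold om; linarith

theorem om_le (h t : ℝ) : om h t ≤ 2 * t := by
  have : min t h ≤ t := min_le_left _ _
  unfold om; linarith

theorem om_nonneg {h t : ℝ} (hh : 0 ≤ h) (ht : 0 ≤ t) : 0 ≤ om h t := ht.trans (le_om hh ht)

theorem om_pos {h t : ℝ} (hh : 0 ≤ h) (ht : 0 < t) : 0 < om h t := ht.trans_le (le_om hh ht.le)

theorem om_add {h s t : ℝ} (hh : 0 ≤ h) (hs : 0 ≤ s) (ht : 0 ≤ t) :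
    om h (s + t) ≤ om h s + om h t := by
  unfold om
  rcases le_total s h with h1 | h1
  · rcases le_total t h with h2 | h2
    · rw [min_eq_left h1, min_eq_left h2]
      have := min_le_left (s + t) h
      linarith
    · rw [min_eq_left h1, min_eq_right h2]
      have := min_le_right (s + t) h
      linarith
  · rw [min_eq_right h1]
    have := min_le_right (s + t) h
    have : 0 ≤ min t h := le_min ht hh
    linarith

variable {M E : Type*} [MetricSpace M] [Zero M] [NormedAddCommGroup E] [NormedSpace ℝ E]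

/-- abstract form of the free space -/
structure IsFree (δ : M → E) : Prop where
  zero : δ 0 = 0
  lip : ∀ x y, ‖δ x - δ y‖ ≤ dist x y
  ext : ∀ (f : M → ℝ) (K : ℝ), 0 ≤ K → f 0 = 0 → (∀ x y, f x - f y ≤ K * dist x y) →
    ∃ g : E →L[ℝ] ℝ, (∀ x, g (δ x) = f x) ∧ ‖g‖ ≤ K
  dense : ∀ (e : E) (ε : ℝ), 0 < ε → ∃ y ∈ Submodule.span ℝ (range δ), ‖e - y‖ ≤ ε

/-- functionals which are `om h ∘ dist`-Lipschitz on `M` -/
def LL (δ : M → E) (h : ℝ) : Set (E →L[ℝ] ℝ) :=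
  {g | ∀ x y, g (δ x) - g (δ y) ≤ om h (dist x y)}

/-- the dual norm -/
noncomputable def NN (δ : M → E) (h : ℝ) (x : E) : ℝ := ⨆ g : LL δ h, (g : E →L[ℝ] ℝ) x

/-- molecule -/
noncomputable def mol (δ : M → E) (h : ℝ) (u v : M) : E := (om h (dist u v))⁻¹ • (δ u - δ v)

section

variable {δ : M → E}

theorem IsFree.eq_of_eq (hδ : IsFree δ) {g g' : E →L[ℝ] ℝ} (h : ∀ x, g (δ x) = g' (δ x)) :
    g = g' := by
  have h1 : ∀ y ∈ Submodule.span ℝ (range δ), g y = g' y := by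
    intro y hy
    induction hy using Submodule.span_induction with
    | mem x hx => obtain ⟨m, rfl⟩ := hx; exact h m
    | zero => simp
    | add x y _ _ hx hy => rw [map_add, map_add, hx, hy]
    | smul a x _ hx => rw [map_smul, map_smul, hx]
  ext e
  by_contra hne
  have hpos : 0 < |g e - g' e| := abs_pos.2 (sub_ne_zero.2 hne)
  obtain ⟨y, hy, hey⟩ := hδ.dense e (|g e - g' e| / (2 * (‖g - g'‖ + 1))) (by positivity)
  have h2 : g e - g' e = (g - g') (e - y) := by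
    rw [map_sub, _root_.sub_apply, _root_.sub_apply, h1 y hy]
    ring
  have h3 : |g e - g' e| ≤ ‖g - g'‖ * ‖e - y‖ := by
    rw [h2]; exact (g - g').le_opNorm _
  have h4 : ‖g - g'‖ * ‖e - y‖ ≤ (‖g - g'‖ + 1) * (|g e - g' e| / (2 * (‖g - g'‖ + 1))) := by
    gcongr
    linarith
  have h5 : (‖g - g'‖ + 1) * (|g e - g' e| / (2 * (‖g - g'‖ + 1))) = |g e - g' e| / 2 := by
    field_simp
  linarith

theorem IsFree.abs_le (hδ : IsFree δ) {g : E →L[ℝ] ℝ} {K : ℝ} (hK : 0 ≤ K)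
    (hg : ∀ x y, g (δ x) - g (δ y) ≤ K * dist x y) (e : E) : |g e| ≤ K * ‖e‖ := by
  obtain ⟨g', h1, h2⟩ := hδ.ext (fun x => g (δ x)) K hK (by rw [hδ.zero, map_zero]) hg
  have : g = g' := hδ.eq_of_eq fun x => (h1 x).symm
  rw [this]
  exact (g'.le_opNorm e).trans (mul_le_mul_of_nonneg_right h2 (norm_nonneg _))

theorem IsFree.LL_abs_le (hδ : IsFree δ) {h : ℝ} {g : E →L[ℝ] ℝ} (hg : g ∈ LL δ h) (e : E) :
    |g e| ≤ 2 * ‖e‖ :=
  hδ.abs_le zero_le_two (fun x y => (hg x y).trans (om_le h _)) e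

theorem IsFree.exists_LL (hδ : IsFree δ) {h : ℝ} (f : M → ℝ) (f0 : f 0 = 0)
    (hf : ∀ x y, f x - f y ≤ om h (dist x y)) : ∃ g ∈ LL δ h, ∀ x, g (δ x) = f x := by
  obtain ⟨g, h1, h2⟩ := hδ.ext f 2 zero_le_two f0 (fun x y => (hf x y).trans (om_le h _))
  exact ⟨g, fun x y => by rw [h1, h1]; exact hf x y, h1⟩

theorem zero_mem_LL {h : ℝ} (hh : 0 ≤ h) : (0 : E →L[ℝ] ℝ) ∈ LL δ h := fun x y => by
  simpa using om_nonneg hh dist_nonneg

theorem neg_mem_LL {h : ℝ} {g : E →L[ℝ] ℝ} (hg : g ∈ LL δ h) : -g ∈ LL δ h := fun x y => by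
  have := hg y x
  rw [dist_comm] at this
  rw [_root_.neg_apply, _root_.neg_apply]
  linarith

theorem IsFree.bdd (hδ : IsFree δ) (h : ℝ) (x : E) :
    BddAbove (range fun g : LL δ h => (g : E →L[ℝ] ℝ) x) :=
  ⟨2 * ‖x‖, by rintro _ ⟨g, rfl⟩; exact (le_abs_self _).trans (hδ.LL_abs_le g.2 x)⟩

theorem IsFree.le_NN (hδ : IsFree δ) {h : ℝ} {g : E →L[ℝ] ℝ} (hg : g ∈ LL δ h) (x : E) :
    g x ≤ NN δ h x := le_ciSup (hδ.bdd h x) ⟨g, hg⟩

theorem IsFree.exists_near (hδ : IsFree δ) {h : ℝ} (hh : 0 ≤ h) (x : E) {η : ℝ} (hη : 0 < η) :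
    ∃ g ∈ LL δ h, NN δ h x - η ≤ g x := by
  haveI : Nonempty (LL δ h) := ⟨⟨0, zero_mem_LL hh⟩⟩
  obtain ⟨g, hg⟩ := exists_lt_of_lt_ciSup (show NN δ h x - η < ⨆ g : LL δ h, (g : E →L[ℝ] ℝ) x by
    unfold NN; linarith)
  exact ⟨g.1, g.2, hg.le⟩

theorem IsFree.NN_nonneg (hδ : IsFree δ) {h : ℝ} (hh : 0 ≤ h) (x : E) : 0 ≤ NN δ h x := by
  have := hδ.le_NN (zero_mem_LL hh) x
  simpa using this

theorem mol_self (h : ℝ) (u : M) : mol δ h u u = 0 := by simp [mol]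

theorem LL_mol_le {h : ℝ} (hh : 0 ≤ h) {g : E →L[ℝ] ℝ} (hg : g ∈ LL δ h) (u v : M) :
    g (mol δ h u v) ≤ 1 := by
  rcases eq_or_ne u v with rfl | huv
  · rw [mol_self, map_zero]; exact zero_le_one
  have h1 := om_pos hh (dist_pos.2 huv)
  unfold mol
  rw [map_smul, smul_eq_mul, map_sub, inv_mul_le_iff₀ h1, mul_one]
  exact hg u v

theorem IsFree.norm_mol_le (hδ : IsFree δ) {h : ℝ} (hh : 0 ≤ h) (u v : M) :
    ‖mol δ h u v‖ ≤ 1 := by
  rcases eq_or_ne u v with rfl | huv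
  · rw [mol_self, norm_zero]; exact zero_le_one
  have h1 := om_pos hh (dist_pos.2 huv)
  unfold mol
  rw [norm_smul, norm_inv, Real.norm_of_nonneg h1.le, inv_mul_le_iff₀ h1, mul_one]
  exact (hδ.lip u v).trans (le_om hh dist_nonneg)

/-- for a near-maximiser the defect is small -/
theorem IsFree.defect (hδ : IsFree δ) {h : ℝ} {x : E} {η τ : ℝ}
    {ι : Type*} [Fintype ι] {a : ι → ℝ} {u v : ι → M}
    (hsum : ∑ k, a k ≤ NN δ h x + η)
    (happ : ‖x - ∑ k, a k • mol δ h (u k) (v k)‖ ≤ η) {g : E →L[ℝ] ℝ} (hg : g ∈ LL δ h)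
    (hgx : NN δ h x - τ ≤ g x) :
    ∑ k, a k * (1 - g (mol δ h (u k) (v k))) ≤ 3 * η + τ := by
  have h1 : g x = g (x - ∑ k, a k • mol δ h (u k) (v k)) + ∑ k, a k * g (mol δ h (u k) (v k)) := by
    rw [map_sub, map_sum]
    simp only [map_smul, smul_eq_mul]
    ring
  have h2 := (_root_.abs_le.1 (hδ.LL_abs_le hg (x - ∑ k, a k • mol δ h (u k) (v k)))).2
  have h3 : ∑ k, a k * (1 - g (mol δ h (u k) (v k))) =
      ∑ k, a k - ∑ k, a k * g (mol δ h (u k) (v k)) := by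
    rw [← Finset.sum_sub_distrib]
    exact Finset.sum_congr rfl fun k _ => by ring
  linarith

end

end Pool.Agent.Helper90.Free
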