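import Pool.Agent.Helper90.Free.Base

set_option autoImplicit false
set_option linter.unusedSectionVars false
set_option linter.unusedVariables false

open Set Filter Topology

namespace Pool.Agent.Helper90.Free


variable {M E : Type*} [DecidableEq M] [MetricSpace M] [Zero M] [NormedAddCommGroup E] [NormedSpace ℝ E]

section

variable {δ : M → E}

noncomputable def fplus (δ : M → E) (h : ℝ) (S : Finset M) (g : E →L[ℝ] ℝ) (u : M) : ℝ :=
  (insert 0 S : Finset M).inf' (Finset.insert_nonempty 0 S) fun z => g (δ z) + om h (dist z u)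

noncomputable def fminus (δ : M → E) (h : ℝ) (S : Finset M) (g : E →L[ℝ] ℝ) (u : M) : ℝ :=
  (insert 0 S : Finset M).sup' (Finset.insert_nonempty 0 S) fun z => g (δ z) - om h (dist z u)

/-- the average of the largest and the smallest extension from `insert 0 S` -/
noncomputable def fav (δ : M → E) (h : ℝ) (S : Finset M) (g : E →L[ℝ] ℝ) (u : M) : ℝ :=
  (fplus δ h S g u + fminus δ h S g u) / 2

theorem fp_le (h : ℝ) {S : Finset M} (g : E →L[ℝ] ℝ) (u : M) {z : M}
    (hz : z ∈ (insert 0 S : Finset M)) : fplus δ h S g u ≤ g (δ z) + om h (dist z u) :=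
  Finset.inf'_le (fun z => g (δ z) + om h (dist z u)) hz

theorem le_fm (h : ℝ) {S : Finset M} (g : E →L[ℝ] ℝ) (u : M) {z : M}
    (hz : z ∈ (insert 0 S : Finset M)) : g (δ z) - om h (dist z u) ≤ fminus δ h S g u :=
  Finset.le_sup' (fun z => g (δ z) - om h (dist z u)) hz

theorem fp_exists (h : ℝ) (S : Finset M) (g : E →L[ℝ] ℝ) (u : M) :
    ∃ z ∈ (insert 0 S : Finset M), fplus δ h S g u = g (δ z) + om h (dist z u) :=
  Finset.exists_mem_eq_inf' (Finset.insert_nonempty 0 S) (fun z => g (δ z) + om h (dist z u))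

theorem fm_exists (h : ℝ) (S : Finset M) (g : E →L[ℝ] ℝ) (u : M) :
    ∃ z ∈ (insert 0 S : Finset M), fminus δ h S g u = g (δ z) - om h (dist z u) :=
  Finset.exists_mem_eq_sup' (Finset.insert_nonempty 0 S) (fun z => g (δ z) - om h (dist z u))

theorem fav_eq {h : ℝ} (hh : 0 ≤ h) {S : Finset M} {g : E →L[ℝ] ℝ} (hg : g ∈ LL δ h) {s : M}
    (hs : s ∈ (insert 0 S : Finset M)) : fav δ h S g s = g (δ s) := by
  have h1 : fplus δ h S g s = g (δ s) := by
    apply le_antisymm
    · have := fp_le h (δ := δ) g s hs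
      rwa [dist_self, om_zero hh, add_zero] at this
    · obtain ⟨z, -, hz⟩ := fp_exists (δ := δ) h S g s
      rw [hz]
      have := hg s z
      rw [dist_comm] at this
      linarith
  have h2 : fminus δ h S g s = g (δ s) := by
    apply le_antisymm
    · obtain ⟨z, -, hz⟩ := fm_exists (δ := δ) h S g s
      rw [hz]
      have := hg z s
      linarith
    · have := le_fm h (δ := δ) g s hs
      rwa [dist_self, om_zero hh, sub_zero] at this
  unfold fav
  rw [h1, h2]
  ring

theorem fp_sub_le {h : ℝ} (hh : 0 ≤ h) (S : Finset M) (g : E →L[ℝ] ℝ) (u v : M) :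
    ∃ z ∈ (insert 0 S : Finset M), fplus δ h S g u - fplus δ h S g v ≤
      om h (dist u v + dist z v) - om h (dist z v) := by
  obtain ⟨z, hzS, hz⟩ := fp_exists (δ := δ) h S g v
  refine ⟨z, hzS, ?_⟩
  have h1 := fp_le h (δ := δ) g u hzS
  have h2 : om h (dist z u) ≤ om h (dist u v + dist z v) := by
    apply om_mono
    have := dist_triangle z v u
    rw [dist_comm v u] at this
    linarith
  rw [hz]
  linarith

theorem fm_sub_le {h : ℝ} (hh : 0 ≤ h) (S : Finset M) (g : E →L[ℝ] ℝ) (u v : M) :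
    ∃ w ∈ (insert 0 S : Finset M), fminus δ h S g u - fminus δ h S g v ≤
      om h (dist u v + dist w u) - om h (dist w u) := by
  obtain ⟨w, hwS, hw⟩ := fm_exists (δ := δ) h S g u
  refine ⟨w, hwS, ?_⟩
  have h1 := le_fm h (δ := δ) g v hwS
  have h2 : om h (dist w v) ≤ om h (dist u v + dist w u) := by
    apply om_mono
    have := dist_triangle w u v
    linarith
  rw [hw]
  linarith

theorem fp_sub_le' {h : ℝ} (hh : 0 ≤ h) (S : Finset M) (g : E →L[ℝ] ℝ) (u v : M) :
    fplus δ h S g u - fplus δ h S g v ≤ om h (dist u v) := by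
  obtain ⟨z, -, hz⟩ := fp_sub_le (δ := δ) hh S g u v
  have := om_add hh (dist_nonneg (x := u) (y := v)) (dist_nonneg (x := z) (y := v))
  linarith

theorem fm_sub_le' {h : ℝ} (hh : 0 ≤ h) (S : Finset M) (g : E →L[ℝ] ℝ) (u v : M) :
    fminus δ h S g u - fminus δ h S g v ≤ om h (dist u v) := by
  obtain ⟨z, -, hz⟩ := fm_sub_le (δ := δ) hh S g u v
  have := om_add hh (dist_nonneg (x := u) (y := v)) (dist_nonneg (x := z) (y := u))
  linarith

theorem fav_sub_le {h : ℝ} (hh : 0 ≤ h) (S : Finset M) (g : E →L[ℝ] ℝ) (u v : M) :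
    fav δ h S g u - fav δ h S g v ≤ om h (dist u v) := by
  have h1 := fp_sub_le' (δ := δ) hh S g u v
  have h2 := fm_sub_le' (δ := δ) hh S g u v
  unfold fav
  linarith

theorem fav_neg (h : ℝ) (S : Finset M) (g : E →L[ℝ] ℝ) (u : M) :
    fav δ h S (-g) u = - fav δ h S g u := by
  have h1 : fplus δ h S (-g) u = - fminus δ h S g u := by
    apply le_antisymm
    · obtain ⟨w, hwS, hw⟩ := fm_exists (δ := δ) h S g u
      have := fp_le h (δ := δ) (-g) u hwS
      rw [_root_.neg_apply] at this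
      rw [hw]; linarith
    · obtain ⟨z, hzS, hz⟩ := fp_exists (δ := δ) h S (-g) u
      have := le_fm h (δ := δ) g u hzS
      rw [hz, _root_.neg_apply]; linarith
  have h2 : fminus δ h S (-g) u = - fplus δ h S g u := by
    apply le_antisymm
    · obtain ⟨w, hwS, hw⟩ := fm_exists (δ := δ) h S (-g) u
      have := fp_le h (δ := δ) g u hwS
      rw [hw, _root_.neg_apply]; linarith
    · obtain ⟨z, hzS, hz⟩ := fp_exists (δ := δ) h S g u
      have := le_fm h (δ := δ) (-g) u hzS
      rw [_root_.neg_apply] at this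
      rw [hz]; linarith
  unfold fav
  rw [h1, h2]
  ring

theorem claimD_aux {h D s b t : ℝ} (hh : 0 < h) (hs : 0 ≤ s) (hsD : 2 * s * (D + h) < h)
    (h1 : h ≤ b) (h2 : b ≤ D) (ht : 0 ≤ t)
    (hF : (1 - 2 * s) * om h b ≤ om h (b + t) - om h t) : t ≤ 2 * s * (D + h) := by
  have e1 : om h b = b + h := by
    unfold om; rw [min_eq_right h1]
  have e2 : om h (b + t) = b + t + h := by
    unfold om; rw [min_eq_right (by linarith)]
  have e3 : om h t = t + min t h := rfl
  rw [e1, e2, e3] at hF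
  have h3 : min t h ≤ 2 * s * (b + h) := by nlinarith
  have h4 : 2 * s * (b + h) ≤ 2 * s * (D + h) :=
    mul_le_mul_of_nonneg_left (by linarith) (by linarith)
  rcases min_choice t h with h5 | h5
  · rw [h5] at h3; linarith
  · rw [h5] at h3; linarith

/-- If the average extension is almost extremal on a pair of medium distance, then both
points are close to `insert 0 S`. -/
theorem claimD {h D s : ℝ} (hh : 0 < h) (hs : 0 ≤ s) (hsD : 2 * s * (D + h) < h) (S : Finset M)
    (g : E →L[ℝ] ℝ) (u v : M) (h1 : h ≤ dist u v) (h2 : dist u v ≤ D)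
    (hF : (1 - s) * om h (dist u v) ≤ fav δ h S g u - fav δ h S g v) :
    ∃ z ∈ (insert 0 S : Finset M), ∃ w ∈ (insert 0 S : Finset M),
      dist z v ≤ 2 * s * (D + h) ∧ dist w u ≤ 2 * s * (D + h) := by
  have hp := fp_sub_le' (δ := δ) hh.le S g u v
  have hm := fm_sub_le' (δ := δ) hh.le S g u v
  obtain ⟨z, hzS, hz⟩ := fp_sub_le (δ := δ) hh.le S g u v
  obtain ⟨w, hwS, hw⟩ := fm_sub_le (δ := δ) hh.le S g u v
  unfold fav at hF
  refine ⟨z, hzS, w, hwS, ?_, ?_⟩
  · apply claimD_aux hh hs hsD h1 h2 dist_nonneg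
    linarith
  · apply claimD_aux hh hs hsD h1 h2 dist_nonneg
    linarith

end

end Pool.Agent.Helper90.Free
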