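import Mathlib

set_option autoImplicit false

open Set Filter Topology

namespace Pool.Agent.Helper90.Free

section

variable {X : Type*} [NormedAddCommGroup X] [NormedSpace ℝ X]

/-- squares of seminorms -/
structure IsQ (q : X → ℝ) : Prop where
  nonneg : ∀ x, 0 ≤ q x
  smul : ∀ (c : ℝ) (x : X), q (c • x) = c ^ 2 * q x
  add : ∀ (x y : X) (t : ℝ), 0 < t → q (x + y) ≤ (1 + t) * q x + (1 + t⁻¹) * q y

namespace IsQ

theorem zero : IsQ (fun _ : X => (0 : ℝ)) := ⟨fun _ => le_rfl, fun _ _ => by simp, fun _ _ _ _ => by simp⟩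

theorem two {q : X → ℝ} (hq : IsQ q) (x y : X) : q (x + y) ≤ 2 * q x + 2 * q y := by
  have := hq.add x y 1 one_pos
  norm_num at this
  linarith

theorem sq (p : Seminorm ℝ X) : IsQ (fun x => p x ^ 2) where
  nonneg x := sq_nonneg _
  smul c x := by
    rw [map_smul_eq_mul, mul_pow, Real.norm_eq_abs, sq_abs]
  add x y t ht := by
    have h1 : p (x + y) ≤ p x + p y := map_add_le_add p x y
    have h2 : p (x + y) ^ 2 ≤ (p x + p y) ^ 2 := pow_le_pow_left₀ (apply_nonneg p _) h1 2
    refine h2.trans ?_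
    have h3 : 0 ≤ (t * p x - p y) ^ 2 * t⁻¹ := mul_nonneg (sq_nonneg _) (inv_nonneg.2 ht.le)
    have h4 : (t * p x - p y) ^ 2 * t⁻¹ = t * p x ^ 2 - 2 * p x * p y + t⁻¹ * p y ^ 2 := by
      field_simp
      ring
    nlinarith

theorem sq_lin (g : X →L[ℝ] ℝ) : IsQ (fun x => g x ^ 2) where
  nonneg x := sq_nonneg _
  smul c x := by
    rw [map_smul, smul_eq_mul, mul_pow]
  add x y t ht := by
    rw [map_add]
    have h3 : 0 ≤ (t * g x - g y) ^ 2 * t⁻¹ := mul_nonneg (sq_nonneg _) (inv_nonneg.2 ht.le)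
    have h4 : (t * g x - g y) ^ 2 * t⁻¹ = t * g x ^ 2 - 2 * g x * g y + t⁻¹ * g y ^ 2 := by
      field_simp
      ring
    nlinarith

theorem sum {ι : Type*} (s : Finset ι) {q : ι → X → ℝ} (hq : ∀ i ∈ s, IsQ (q i)) :
    IsQ (fun x => ∑ i ∈ s, q i x) where
  nonneg x := Finset.sum_nonneg fun i hi => (hq i hi).nonneg x
  smul c x := by
    rw [Finset.mul_sum]
    exact Finset.sum_congr rfl fun i hi => (hq i hi).smul c x
  add x y t ht := by
    rw [Finset.mul_sum, Finset.mul_sum, ← Finset.sum_add_distrib]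
    exact Finset.sum_le_sum fun i hi => (hq i hi).add x y t ht

theorem add' {q r : X → ℝ} (hq : IsQ q) (hr : IsQ r) : IsQ (fun x => q x + r x) where
  nonneg x := add_nonneg (hq.nonneg x) (hr.nonneg x)
  smul c x := by rw [hq.smul, hr.smul]; ring
  add x y t ht := by
    have := hq.add x y t ht
    have := hr.add x y t ht
    linarith

theorem const_mul {q : X → ℝ} (hq : IsQ q) {c : ℝ} (hc : 0 ≤ c) : IsQ (fun x => c * q x) where
  nonneg x := mul_nonneg hc (hq.nonneg x)
  smul d x := by rw [hq.smul]; ring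
  add x y t ht := by
    have := mul_le_mul_of_nonneg_left (hq.add x y t ht) hc
    linarith

theorem iSup {ι : Type*} {q : ι → X → ℝ} (hq : ∀ i, IsQ (q i))
    (hb : ∀ x, BddAbove (range fun i => q i x)) : IsQ (fun x => ⨆ i, q i x) where
  nonneg x := Real.iSup_nonneg fun i => (hq i).nonneg x
  smul c x := by
    rw [Real.mul_iSup_of_nonneg (sq_nonneg c)]
    exact iSup_congr fun i => (hq i).smul c x
  add x y t ht := by
    rcases isEmpty_or_nonempty ι with h | h
    · simp
    apply ciSup_le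
    intro i
    refine ((hq i).add x y t ht).trans ?_
    have h1 := le_ciSup (hb x) i
    have h2 := le_ciSup (hb y) i
    have h3 := inv_nonneg.2 ht.le
    gcongr

theorem tsum {ι : Type*} {q : ι → X → ℝ} (hq : ∀ i, IsQ (q i))
    (hs : ∀ x, Summable fun i => q i x) : IsQ (fun x => ∑' i, q i x) where
  nonneg x := tsum_nonneg fun i => (hq i).nonneg x
  smul c x := by
    rw [← tsum_mul_left]
    exact tsum_congr fun i => (hq i).smul c x
  add x y t ht := by
    rw [← tsum_mul_left, ← tsum_mul_left, ← ((hs x).mul_left _).tsum_add ((hs y).mul_left _)]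
    exact (hs (x + y)).tsum_le_tsum (fun i => (hq i).add x y t ht)
      (((hs x).mul_left _).add ((hs y).mul_left _))

theorem sqrt_add {q : X → ℝ} (hq : IsQ q) (x y : X) : √(q (x + y)) ≤ √(q x) + √(q y) := by
  have ha := Real.sqrt_nonneg (q x)
  have hb := Real.sqrt_nonneg (q y)
  have ha2 := Real.sq_sqrt (hq.nonneg x)
  have hb2 := Real.sq_sqrt (hq.nonneg y)
  set a := √(q x)
  set b := √(q y)
  apply Real.sqrt_le_iff.2
  refine ⟨add_nonneg ha hb, ?_⟩
  rcases ha.eq_or_lt with ha0 | ha0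
  · have hx0 : q x = 0 := by rw [← ha2, ← ha0]; ring
    rw [← ha0, zero_add, hb2]
    apply le_of_forall_pos_le_add
    intro ε hε
    have hqy := hq.nonneg y
    have := hq.add x y ((q y + 1) / ε) (by positivity)
    rw [hx0, mul_zero, zero_add, inv_div] at this
    refine this.trans ?_
    have : ε / (q y + 1) * q y ≤ ε := by
      rw [div_mul_eq_mul_div, div_le_iff₀ (by positivity)]
      nlinarith
    linarith
  rcases hb.eq_or_lt with hb0 | hb0
  · have hy0 : q y = 0 := by rw [← hb2, ← hb0]; ring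
    rw [← hb0, add_zero, ha2]
    apply le_of_forall_pos_le_add
    intro ε hε
    have hqy := hq.nonneg x
    have := hq.add x y (ε / (q x + 1)) (by positivity)
    rw [hy0, mul_zero, add_zero] at this
    refine this.trans ?_
    have : ε / (q x + 1) * q x ≤ ε := by
      rw [div_mul_eq_mul_div, div_le_iff₀ (by positivity)]
      nlinarith
    linarith
  · have := hq.add x y (b / a) (by positivity)
    refine this.trans (le_of_eq ?_)
    rw [← ha2, ← hb2, inv_div]
    field_simp
    ring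

/-- the seminorm -/
noncomputable def toSeminorm {q : X → ℝ} (hq : IsQ q) : Seminorm ℝ X :=
  Seminorm.of (fun x => √(q x)) (fun x y => hq.sqrt_add x y) (fun c x => by
    show √(q (c • x)) = ‖c‖ * √(q x)
    rw [hq.smul, Real.sqrt_mul (sq_nonneg c), Real.sqrt_sq_eq_abs, Real.norm_eq_abs])

theorem toSeminorm_apply {q : X → ℝ} (hq : IsQ q) (x : X) : hq.toSeminorm x = √(q x) := rfl

theorem exists_seminorm {q : X → ℝ} (hq : IsQ q) : ∃ N : Seminorm ℝ X, ∀ x, N x = √(q x) :=
  ⟨hq.toSeminorm, fun _ => rfl⟩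

end IsQ

end

end Pool.Agent.Helper90.Free
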