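import Pool.Agent.Helper90.Free.Base

set_option autoImplicit false
set_option linter.unusedSectionVars false
set_option linter.unusedVariables false

open Set Filter Topology

namespace Pool.Agent.Helper90.Free

/-- the smaller modulus -/
noncomputable def ot9220 (h t : ℝ) : ℝ := t + min (t / 4) h

theorem ot9220_mono (h : ℝ) {s t : ℝ} (hst : s ≤ t) : ot9220 h s ≤ ot9220 h t :=
  add_le_add hst (min_le_min_right h (by linarith))

theorem ot9220_nonneg {h t : ℝ} (hh : 0 ≤ h) (ht : 0 ≤ t) : 0 ≤ ot9220 h t := by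
  have : 0 ≤ min (t / 4) h := le_min (by linarith) hh
  unfold ot9220; linarith

theorem ot9220_zero {h : ℝ} (hh : 0 ≤ h) : ot9220 h 0 = 0 := by simp [ot9220, hh]

theorem ot9220_le (h t : ℝ) : ot9220 h t ≤ 5 / 4 * t := by
  have : min (t / 4) h ≤ t / 4 := min_le_left _ _
  unfold ot9220; linarith

theorem ot9220_le_om {h t : ℝ} (ht : 0 ≤ t) : ot9220 h t ≤ om h t := by
  have : min (t / 4) h ≤ min t h := min_le_min_right h (by linarith)
  unfold ot9220 om; linarith

theorem om_sub_ot9220 {h t : ℝ} (hh : 0 ≤ h) (ht : 0 ≤ t) : om h t - 3 / 4 * h ≤ ot9220 h t := by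
  unfold ot9220 om
  rcases le_total (t / 4) h with h1 | h1
  · rw [min_eq_left h1]
    rcases le_total t h with h2 | h2
    · rw [min_eq_left h2]; linarith
    · rw [min_eq_right h2]; linarith
  · rw [min_eq_right h1]
    have := min_le_right t h
    linarith

theorem ot9220_add {h s t : ℝ} (hh : 0 ≤ h) (hs : 0 ≤ s) (ht : 0 ≤ t) :
    ot9220 h (s + t) ≤ ot9220 h s + ot9220 h t := by
  unfold ot9220
  rcases le_total (s / 4) h with h1 | h1
  · rcases le_total (t / 4) h with h2 | h2
    · rw [min_eq_left h1, min_eq_left h2]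
      have := min_le_left ((s + t) / 4) h
      linarith
    · rw [min_eq_left h1, min_eq_right h2]
      have := min_le_right ((s + t) / 4) h
      linarith
  · rw [min_eq_right h1]
    have := min_le_right ((s + t) / 4) h
    have : 0 ≤ min (t / 4) h := le_min (by linarith) hh
    linarith

/-- the inf-convolution step -/
theorem infconv9220 {M : Type*} [MetricSpace M] [Zero M] {h R : ℝ} (hh : 0 ≤ h) (hR : 0 < R)
    (f0 : M → ℝ) (h0 : f0 0 = 0) (hf : ∀ x y, f0 x - f0 y ≤ om h (dist x y)) :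
    ∃ F : M → ℝ, F 0 = 0 ∧ (∀ x y, F x - F y ≤ ot9220 h (dist x y)) ∧
      (∀ x, |F x| ≤ 2 * R) ∧ ∀ x, dist x 0 ≤ R → |F x - f0 x| ≤ 3 / 4 * h := by
  have hlow : ∀ u z : M, f0 u - 3 / 4 * h ≤ f0 z + ot9220 h (dist u z) := by
    intro u z
    have e1 := hf u z
    have e2 := om_sub_ot9220 hh (dist_nonneg (x := u) (y := z))
    linarith
  have hbdd : ∀ u : M, BddBelow (range fun z : M => f0 z + ot9220 h (dist u z)) := by
    intro u
    refine ⟨f0 u - 3 / 4 * h, ?_⟩
    rintro _ ⟨z, rfl⟩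
    exact hlow u z
  haveI : Nonempty M := ⟨0⟩
  set F1 : M → ℝ := fun u => ⨅ z : M, (f0 z + ot9220 h (dist u z)) with hF1
  have hF1ge : ∀ u, f0 u - 3 / 4 * h ≤ F1 u := fun u => le_ciInf fun z => hlow u z
  have hF1le : ∀ u z, F1 u ≤ f0 z + ot9220 h (dist u z) := fun u z => ciInf_le (hbdd u) z
  have hF1le' : ∀ u, F1 u ≤ f0 u := by
    intro u
    have := hF1le u u
    rw [dist_self, ot9220_zero hh, add_zero] at this
    exact this
  have hF1d : ∀ u v, F1 u - F1 v ≤ ot9220 h (dist u v) := by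
    intro u v
    have : F1 u - ot9220 h (dist u v) ≤ F1 v := by
      refine le_ciInf fun z => ?_
      have e1 := hF1le u z
      have e2 := ot9220_mono h (dist_triangle u v z)
      have e3 := ot9220_add hh (dist_nonneg (x := u) (y := v)) (dist_nonneg (x := v) (y := z))
      linarith
    linarith
  refine ⟨fun u => max (-(2 * R)) (min (2 * R) (F1 u - F1 0)), ?_, ?_, ?_, ?_⟩
  · show max (-(2 * R)) (min (2 * R) (F1 0 - F1 0)) = 0
    rw [sub_self, min_eq_right (by linarith), max_eq_right (by linarith)]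
  · intro x y
    show max (-(2 * R)) (min (2 * R) (F1 x - F1 0)) - max (-(2 * R)) (min (2 * R) (F1 y - F1 0))
      ≤ ot9220 h (dist x y)
    have e1 := hF1d x y
    have e2 := ot9220_nonneg hh (dist_nonneg (x := x) (y := y))
    rw [sub_le_iff_le_add]
    apply max_le
    · have := le_max_left (-(2 * R)) (min (2 * R) (F1 y - F1 0))
      linarith
    · have e3 := le_max_right (-(2 * R)) (min (2 * R) (F1 y - F1 0))
      rcases le_total (2 * R) (F1 y - F1 0) with h1 | h1
      · rw [min_eq_left h1] at e3 ⊢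
        have := min_le_left (2 * R) (F1 x - F1 0)
        linarith
      · rw [min_eq_right h1] at e3 ⊢
        have := min_le_right (2 * R) (F1 x - F1 0)
        linarith
  · intro x
    show |max (-(2 * R)) (min (2 * R) (F1 x - F1 0))| ≤ 2 * R
    rw [_root_.abs_le]
    exact ⟨le_max_left _ _, max_le (by linarith) (min_le_left _ _)⟩
  · intro x hx
    show |max (-(2 * R)) (min (2 * R) (F1 x - F1 0)) - f0 x| ≤ 3 / 4 * h
    have e1 := hF1d x 0
    have e2 := hF1d 0 x
    rw [dist_comm 0 x] at e2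
    have e3 := ot9220_le h (dist x 0)
    rw [min_eq_right (by linarith), max_eq_right (by linarith), _root_.abs_le]
    have e4 := hF1ge x
    have e5 := hF1le' x
    have e6 := hF1ge 0
    have e7 := hF1le' 0
    rw [h0] at e6 e7
    constructor <;> linarith



variable {M E : Type*} [MetricSpace M] [Zero M] [NormedAddCommGroup E] [NormedSpace ℝ E]

section

variable {δ : M → E}

/-- Small and large scales carry little mass -/
theorem IsFree.claimBC (hδ : IsFree δ) {h R ε η : ℝ} (hh : 0 < h) (hR : 0 < R) (hη : 0 < η)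
    {x : E} {t : Finset M} {c : M → ℝ} (ht : ∀ s ∈ t, dist s 0 ≤ R)
    (hc : (3 / 2) * h * ∑ s ∈ t, |c s| ≤ ε) (hx : ‖x - ∑ s ∈ t, c s • δ s‖ ≤ ε)
    {n : ℕ} {a : Fin n → ℝ} {u v : Fin n → M} (ha : ∀ k, 0 ≤ a k)
    (hsum : ∑ k, a k ≤ NN δ h x + η)
    (happ : ‖x - ∑ k, a k • mol δ h (u k) (v k)‖ ≤ η) :
    ∑ k with (dist (u k) (v k) < h ∨ 8 * R < dist (u k) (v k)), a k ≤ (8 / 3) * (4 * η + 5 * ε) := by
  obtain ⟨g0, hg0, hg0x⟩ := hδ.exists_near hh.le x hη
  obtain ⟨F, hF0, hFd, hFb, hFn⟩ := infconv9220 hh.le hR (fun z => g0 (δ z))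
    (by show g0 (δ 0) = 0; rw [hδ.zero, map_zero]) (fun x y => hg0 x y)
  obtain ⟨g, hg, hgF⟩ := hδ.exists_LL (h := h) F hF0
    (fun x y => (hFd x y).trans (ot9220_le_om dist_nonneg))
  have hy : |g (∑ s ∈ t, c s • δ s) - g0 (∑ s ∈ t, c s • δ s)| ≤ ε := by
    rw [map_sum, map_sum, ← Finset.sum_sub_distrib]
    refine (Finset.abs_sum_le_sum_abs _ _).trans ?_
    have e1 : ∀ s ∈ t, |g (c s • δ s) - g0 (c s • δ s)| ≤ |c s| * (3 / 4 * h) := by
      intro s hs
      rw [map_smul, map_smul, smul_eq_mul, smul_eq_mul, ← mul_sub, abs_mul, hgF]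
      exact mul_le_mul_of_nonneg_left (hFn s (ht s hs)) (abs_nonneg _)
    refine (Finset.sum_le_sum e1).trans ?_
    rw [← Finset.sum_mul]
    have e2 : 0 ≤ ∑ s ∈ t, |c s| := Finset.sum_nonneg fun s _ => abs_nonneg _
    nlinarith
  have hgx : NN δ h x - (η + 5 * ε) ≤ g x := by
    have e1 : g x = g (x - ∑ s ∈ t, c s • δ s) + g (∑ s ∈ t, c s • δ s) := by
      rw [map_sub]; ring
    have e2 : g0 x = g0 (x - ∑ s ∈ t, c s • δ s) + g0 (∑ s ∈ t, c s • δ s) := by
      rw [map_sub]; ring
    have e3 := (_root_.abs_le.1 (hδ.LL_abs_le hg (x - ∑ s ∈ t, c s • δ s))).1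
    have e4 := (_root_.abs_le.1 (hδ.LL_abs_le hg0 (x - ∑ s ∈ t, c s • δ s))).2
    have e5 := (_root_.abs_le.1 hy).1
    linarith
  have hdef := hδ.defect (u := u) (v := v) hsum happ hg hgx
  have hk : ∀ k, (dist (u k) (v k) < h ∨ 8 * R < dist (u k) (v k)) →
      g (mol δ h (u k) (v k)) ≤ 5 / 8 := by
    intro k hk
    rcases eq_or_ne (u k) (v k) with he | hne
    · rw [he, mol_self, map_zero]; norm_num
    have hd : 0 < dist (u k) (v k) := dist_pos.2 hne
    have h1 := om_pos hh.le hd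
    have e0 := hFd (u k) (v k)
    unfold mol
    rw [map_smul, smul_eq_mul, map_sub, inv_mul_le_iff₀ h1, hgF, hgF]
    rcases hk with hk | hk
    · have e1 := ot9220_le h (dist (u k) (v k))
      have e2 : om h (dist (u k) (v k)) = 2 * dist (u k) (v k) := by
        unfold om; rw [min_eq_left hk.le]; ring
      rw [e2]; linarith
    · have e1 := le_om hh.le hd.le
      have e2 := (_root_.abs_le.1 (hFb (u k))).2
      have e3 := (_root_.abs_le.1 (hFb (v k))).1
      linarith
  have hle : ∑ k with (dist (u k) (v k) < h ∨ 8 * R < dist (u k) (v k)), a k * (3 / 8) ≤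
      ∑ k, a k * (1 - g (mol δ h (u k) (v k))) := by
    refine (Finset.sum_le_sum fun k hk' => ?_).trans
      (Finset.sum_le_sum_of_subset_of_nonneg (Finset.filter_subset _ _) fun k _ _ => ?_)
    · have e1 := hk k (Finset.mem_filter.1 hk').2
      exact mul_le_mul_of_nonneg_left (by linarith) (ha k)
    · have e1 := LL_mol_le hh.le hg (u k) (v k)
      exact mul_nonneg (ha k) (by linarith)
  rw [← Finset.sum_mul] at hle
  linarith

end

end Pool.Agent.Helper90.Free
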