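import Pool.Agent.Helper90.Free.Rep
import Pool.Agent.Helper90.Free.Scale
import Pool.Agent.Helper90.Free.Fav

set_option autoImplicit false
set_option linter.unusedSectionVars false
set_option linter.unusedVariables false

open Set Filter Topology

namespace Pool.Agent.Helper90.Free

variable {M E : Type*} [DecidableEq M] [MetricSpace M] [Zero M] [NormedAddCommGroup E]
  [NormedSpace ℝ E]

section

variable {δ : M → E}

theorem exists_EF (hδ : IsFree δ) {h : ℝ} (hh : 0 ≤ h) (S : Finset M) (g : LL δ h) :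
    ∃ F ∈ LL δ h, ∀ x, F (δ x) = fav δ h S g.1 x :=
  hδ.exists_LL _ (by rw [fav_eq hh g.2 (Finset.mem_insert_self _ _), hδ.zero, map_zero])
    (fun x y => fav_sub_le hh S g.1 x y)

/-- the functional given by the average extension -/
noncomputable def EF (hδ : IsFree δ) {h : ℝ} (hh : 0 ≤ h) (S : Finset M) (g : LL δ h) :
    E →L[ℝ] ℝ := Classical.choose (exists_EF hδ hh S g)

theorem EF_mem (hδ : IsFree δ) {h : ℝ} (hh : 0 ≤ h) (S : Finset M) (g : LL δ h) :
    EF hδ hh S g ∈ LL δ h := (Classical.choose_spec (exists_EF hδ hh S g)).1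

theorem EF_apply (hδ : IsFree δ) {h : ℝ} (hh : 0 ≤ h) (S : Finset M) (g : LL δ h) (x : M) :
    EF hδ hh S g (δ x) = fav δ h S g.1 x := (Classical.choose_spec (exists_EF hδ hh S g)).2 x

theorem EF_bdd (hδ : IsFree δ) {h : ℝ} (hh : 0 ≤ h) (S : Finset M) (x : E) :
    BddAbove (range fun g : LL δ h => |EF hδ hh S g x|) :=
  ⟨2 * ‖x‖, by rintro _ ⟨g, rfl⟩; exact hδ.LL_abs_le (EF_mem hδ hh S g) x⟩

/-- the seminorm attached to a finite set -/
noncomputable def phi (hδ : IsFree δ) {h : ℝ} (hh : 0 ≤ h) (S : Finset M) : Seminorm ℝ E :=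
  Seminorm.of (fun x => ⨆ g : LL δ h, |EF hδ hh S g x|)
    (fun x y => by
      have : Nonempty (LL δ h) := ⟨⟨0, zero_mem_LL hh⟩⟩
      apply ciSup_le
      intro g
      have h1 := le_ciSup (EF_bdd hδ hh S x) g
      have h2 := le_ciSup (EF_bdd hδ hh S y) g
      rw [map_add]
      exact (abs_add_le _ _).trans (add_le_add h1 h2))
    (fun c x => by
      rw [Real.mul_iSup_of_nonneg (norm_nonneg c)]
      apply iSup_congr
      intro g
      rw [map_smul, smul_eq_mul, abs_mul, Real.norm_eq_abs])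

theorem phi_apply (hδ : IsFree δ) {h : ℝ} (hh : 0 ≤ h) (S : Finset M) (x : E) :
    phi hδ hh S x = ⨆ g : LL δ h, |EF hδ hh S g x| := rfl

theorem phi_le (hδ : IsFree δ) {h : ℝ} (hh : 0 ≤ h) (S : Finset M) (x : E) :
    phi hδ hh S x ≤ 2 * ‖x‖ := by
  have : Nonempty (LL δ h) := ⟨⟨0, zero_mem_LL hh⟩⟩
  rw [phi_apply]
  exact ciSup_le fun g => hδ.LL_abs_le (EF_mem hδ hh S g) x

theorem IsFree.exists_comb (hδ : IsFree δ) (x : E) {ε : ℝ} (hε : 0 < ε) :
    ∃ (t : Finset M) (c : M → ℝ), ‖x - ∑ s ∈ t, c s • δ s‖ ≤ ε := by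
  obtain ⟨y, hy, hxy⟩ := hδ.dense x ε hε
  obtain ⟨c, rfl⟩ := (Finsupp.mem_span_range_iff_exists_finsupp).1 hy
  exact ⟨c.support, c, hxy⟩

/-- near-maximality over finite sets gives a near-maximiser -/
theorem exists_nearmax (hδ : IsFree δ) {h : ℝ} (hh : 0 ≤ h) (x : E) {η : ℝ} (hη : 0 < η)
    (S : Finset M) (hS : ∀ T, phi hδ hh T x ≤ phi hδ hh S x + η) :
    ∃ g ∈ LL δ h, ∃ F ∈ LL δ h, (∀ m, F (δ m) = fav δ h S g m) ∧ NN δ h x - 4 * η ≤ F x := by
  obtain ⟨g0, hg0, hg0x⟩ := hδ.exists_near hh x hη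
  obtain ⟨T, c, hT⟩ := hδ.exists_comb x (show 0 < η / 4 by positivity)
  set y := ∑ s ∈ T, c s • δ s with hy
  have hEy : EF hδ hh T ⟨g0, hg0⟩ y = g0 y := by
    rw [hy, map_sum, map_sum]
    apply Finset.sum_congr rfl
    intro s hs
    rw [map_smul, map_smul, EF_apply, fav_eq hh hg0 (Finset.mem_insert_of_mem hs)]
  have h1 : g0 x - η ≤ EF hδ hh T ⟨g0, hg0⟩ x := by
    have h2 := (_root_.abs_le.1 (hδ.LL_abs_le (EF_mem hδ hh T ⟨g0, hg0⟩) (x - y))).1
    have h3 := (_root_.abs_le.1 (hδ.LL_abs_le hg0 (x - y))).2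
    rw [map_sub] at h2 h3
    linarith
  have h2 : NN δ h x - 2 * η ≤ phi hδ hh T x := by
    rw [phi_apply]
    have h3 := le_ciSup (EF_bdd hδ hh T x) ⟨g0, hg0⟩
    have h4 := le_abs_self (EF hδ hh T ⟨g0, hg0⟩ x)
    linarith
  have h3 : NN δ h x - 4 * η < phi hδ hh S x := by
    have := hS T
    linarith
  rw [phi_apply] at h3
  have : Nonempty (LL δ h) := ⟨⟨0, zero_mem_LL hh⟩⟩
  obtain ⟨g, hg⟩ := exists_lt_of_lt_ciSup h3
  rcases le_total 0 (EF hδ hh S g x) with h4 | h4
  · rw [abs_of_nonneg h4] at hg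
    exact ⟨g.1, g.2, EF hδ hh S g, EF_mem hδ hh S g, EF_apply hδ hh S g, hg.le⟩
  · rw [abs_of_nonpos h4] at hg
    refine ⟨-g.1, neg_mem_LL g.2, -EF hδ hh S g, neg_mem_LL (EF_mem hδ hh S g), fun m => ?_, hg.le⟩
    rw [_root_.neg_apply, EF_apply, fav_neg]

/-- the finite-dimensional space attached to a finite set -/
def VS (δ : M → E) (S : Finset M) : Submodule ℝ E :=
  Submodule.span ℝ (δ '' ((insert 0 S : Finset M) : Set M))

instance (S : Finset M) : FiniteDimensional ℝ (VS δ S) :=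
  FiniteDimensional.span_of_finite ℝ (Set.Finite.image _ (Finset.finite_toSet _))

theorem mem_VS {S : Finset M} {z : M} (hz : z ∈ (insert 0 S : Finset M)) : δ z ∈ VS δ S :=
  Submodule.subset_span ⟨z, hz, rfl⟩

theorem localization (hδ : IsFree δ) (x : E) {ε : ℝ} (hε : 0 < ε) :
    ∃ (n : ℕ) (hn : (0 : ℝ) ≤ ((n : ℝ) + 1)⁻¹) (η : ℝ), 0 < η ∧ ∀ S : Finset M,
      (∀ T, phi hδ hn T x ≤ phi hδ hn S x + η) → ∃ v ∈ VS δ S, ‖x - v‖ ≤ ε := by
  set ε₁ := ε / 100 with hε₁
  have hε₁0 : 0 < ε₁ := by positivity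
  obtain ⟨t, c, hx⟩ := hδ.exists_comb x hε₁0
  set R := 1 + ∑ s ∈ t, dist s 0 with hR
  have hR0 : 0 < R := by positivity
  have htR : ∀ s ∈ t, dist s 0 ≤ R := by
    intro s hs
    have := Finset.single_le_sum (f := fun s : M => dist s 0) (fun _ _ => dist_nonneg) hs
    linarith
  obtain ⟨n, hn⟩ := exists_nat_gt ((3 / 2) * (∑ s ∈ t, |c s|) / ε₁)
  set h : ℝ := ((n : ℝ) + 1)⁻¹ with hh
  have hh0 : 0 < h := by positivity
  have hc : (3 / 2) * h * ∑ s ∈ t, |c s| ≤ ε₁ := by
    rw [div_lt_iff₀ hε₁0] at hn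
    have hn1 : (0 : ℝ) < n + 1 := by positivity
    have : (3 / 2) * h * ∑ s ∈ t, |c s| = h * ((3 / 2) * ∑ s ∈ t, |c s|) := by ring
    rw [this, hh, inv_mul_le_iff₀ hn1]
    nlinarith
  set N := NN δ h x with hN
  have hN0 : 0 ≤ N := hδ.NN_nonneg hh0.le x
  set D := 8 * R with hD
  set ρ := min (1 / 2) (ε / (8 * (N + 1))) with hρ
  have hρ0 : 0 < ρ := lt_min (by norm_num) (by positivity)
  have hρ1 : ρ ≤ 1 / 2 := min_le_left _ _
  have hρ2 : ρ ≤ ε / (8 * (N + 1)) := min_le_right _ _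
  set s := h * ρ / (2 * (D + h)) with hs
  have hs0 : 0 < s := by positivity
  have hsD : 2 * s * (D + h) = h * ρ := by
    have hDh : D + h ≠ 0 := by positivity
    rw [hs]
    field_simp
  have hsD' : 2 * s * (D + h) < h := by rw [hsD]; nlinarith
  set η := min ε₁ (min (s * ε / 56) 1) with hη
  have hη0 : 0 < η := lt_min hε₁0 (lt_min (by positivity) one_pos)
  have hη1 : η ≤ ε₁ := min_le_left _ _
  have hη2 : η ≤ s * ε / 56 := (min_le_right _ _).trans (min_le_left _ _)
  have hη3 : η ≤ 1 := (min_le_right _ _).trans (min_le_right _ _)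
  refine ⟨n, hh0.le, η, hη0, fun S hS => ?_⟩
  obtain ⟨g, hg, F, hF, hFg, hFx⟩ := exists_nearmax hδ hh0.le x hη0 S hS
  obtain ⟨N', a, u, v, ha, hsum, happ⟩ := hδ.exists_rep hh0 x hη0
  have hdef := hδ.defect hsum happ hF hFx
  have hBC := hδ.claimBC hh0 hR0 hη0 htR hc hx ha hsum happ
  -- choose approximants
  have key : ∀ k, ∃ w ∈ VS δ S, a k * ‖mol δ h (u k) (v k) - w‖ ≤
      (if (dist (u k) (v k) < h ∨ 8 * R < dist (u k) (v k)) then a k else 0) +
        a k * (1 - F (mol δ h (u k) (v k))) / s + a k * ρ := by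
    intro k
    have h0 := ha k
    have hm1 : 0 ≤ 1 - F (mol δ h (u k) (v k)) := by
      have := LL_mol_le hh0.le hF (u k) (v k)
      linarith
    have hm2 := hδ.norm_mol_le hh0.le (u k) (v k)
    have hnn1 : 0 ≤ a k * (1 - F (mol δ h (u k) (v k))) / s := by positivity
    have hnn2 : 0 ≤ a k * ρ := by positivity
    have hnn3 : a k * ‖mol δ h (u k) (v k) - 0‖ ≤ a k := by
      rw [sub_zero]
      nlinarith
    by_cases h1 : (dist (u k) (v k) < h ∨ 8 * R < dist (u k) (v k))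
    · refine ⟨0, Submodule.zero_mem _, ?_⟩
      rw [if_pos h1]
      linarith
    · rw [if_neg h1]
      push Not at h1
      obtain ⟨h1, h2⟩ := h1
      by_cases h3 : s ≤ 1 - F (mol δ h (u k) (v k))
      · refine ⟨0, Submodule.zero_mem _, ?_⟩
        have : a k ≤ a k * (1 - F (mol δ h (u k) (v k))) / s := by
          rw [le_div_iff₀ hs0]
          exact mul_le_mul_of_nonneg_left h3 h0
        linarith
      · push Not at h3
        have hdpos : 0 < dist (u k) (v k) := hh0.trans_le h1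
        have hompos : 0 < om h (dist (u k) (v k)) := om_pos hh0.le hdpos
        have hom : 2 * h ≤ om h (dist (u k) (v k)) := by
          have := om_mono h h1
          have h4 : om h h = 2 * h := by simp [om]; ring
          linarith
        have hFF : (1 - s) * om h (dist (u k) (v k)) ≤ fav δ h S g (u k) - fav δ h S g (v k) := by
          have h5 : F (mol δ h (u k) (v k)) = (om h (dist (u k) (v k)))⁻¹ *
              (fav δ h S g (u k) - fav δ h S g (v k)) := by
            unfold mol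
            rw [map_smul, smul_eq_mul, map_sub, hFg, hFg]
          have h6 : 1 - s ≤ (om h (dist (u k) (v k)))⁻¹ *
              (fav δ h S g (u k) - fav δ h S g (v k)) := by
            rw [← h5]; linarith
          rw [le_inv_mul_iff₀ hompos] at h6
          linarith
        obtain ⟨z, hz, w, hw, hzv, hwu⟩ := claimD hh0 hs0.le hsD' S g (u k) (v k) h1 h2 hFF
        rw [hsD] at hzv hwu
        refine ⟨(om h (dist (u k) (v k)))⁻¹ • (δ w - δ z), Submodule.smul_mem _ _
          (Submodule.sub_mem _ (mem_VS hw) (mem_VS hz)), ?_⟩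
        have h7 : ‖mol δ h (u k) (v k) - (om h (dist (u k) (v k)))⁻¹ • (δ w - δ z)‖ ≤ ρ := by
          unfold mol
          rw [← smul_sub, norm_smul, norm_inv, Real.norm_of_nonneg hompos.le,
            inv_mul_le_iff₀ hompos]
          have h8 : δ (u k) - δ (v k) - (δ w - δ z) = (δ z - δ (v k)) - (δ w - δ (u k)) := by abel
          rw [h8]
          have h9 := norm_sub_le (δ z - δ (v k)) (δ w - δ (u k))
          have h10 := hδ.lip z (v k)
          have h11 := hδ.lip w (u k)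
          nlinarith
        have h8 := mul_le_mul_of_nonneg_left h7 h0
        linarith
  choose w hw hwk using key
  refine ⟨∑ k, a k • w k, Submodule.sum_mem _ fun k _ => Submodule.smul_mem _ _ (hw k), ?_⟩
  have h1 : x - ∑ k, a k • w k = (x - ∑ k, a k • mol δ h (u k) (v k)) +
      ∑ k, a k • (mol δ h (u k) (v k) - w k) := by
    simp only [smul_sub, Finset.sum_sub_distrib]
    abel
  have h2 : ‖∑ k, a k • (mol δ h (u k) (v k) - w k)‖ ≤
      ∑ k, a k * ‖mol δ h (u k) (v k) - w k‖ := by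
    refine (norm_sum_le _ _).trans (le_of_eq ?_)
    apply Finset.sum_congr rfl
    intro k _
    rw [norm_smul, Real.norm_of_nonneg (ha k)]
  have h3 : ∑ k, a k * ‖mol δ h (u k) (v k) - w k‖ ≤
      ∑ k, ((if (dist (u k) (v k) < h ∨ 8 * R < dist (u k) (v k)) then a k else 0) +
        a k * (1 - F (mol δ h (u k) (v k))) / s + a k * ρ) :=
    Finset.sum_le_sum fun k _ => hwk k
  rw [Finset.sum_add_distrib, Finset.sum_add_distrib, ← Finset.sum_filter, ← Finset.sum_div,
    ← Finset.sum_mul] at h3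
  have h4 : (∑ k, a k * (1 - F (mol δ h (u k) (v k)))) / s ≤ ε / 8 := by
    rw [div_le_iff₀ hs0]
    linarith
  have h5 : (∑ k, a k) * ρ ≤ ε / 8 := by
    have h6 : (∑ k, a k) * ρ ≤ (N + 1) * (ε / (8 * (N + 1))) := by
      apply mul_le_mul _ hρ2 hρ0.le (by positivity)
      linarith
    have h7 : (N + 1) * (ε / (8 * (N + 1))) = ε / 8 := by field_simp
    linarith
  rw [h1]
  refine (norm_add_le _ _).trans ?_
  linarith

end

end Pool.Agent.Helper90.Free
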