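import Pool.Agent.Helper90.Free.IsQ

set_option autoImplicit false
set_option linter.unusedVariables false

open Set Filter Topology

namespace Pool.Agent.Helper90.Free

variable {X : Type*} [NormedAddCommGroup X] [NormedSpace ℝ X]

theorem exists_norming {X : Type*} [NormedAddCommGroup X] [NormedSpace ℝ X] (V : Submodule ℝ X)
    [FiniteDimensional ℝ V] :
    ∃ G : Finset (X →L[ℝ] ℝ), (∀ g ∈ G, ‖g‖ ≤ 1) ∧ ∀ v ∈ V, ∃ g ∈ G, ‖v‖ ≤ 2 * |g v| := by
  classical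
  have hprop : ProperSpace V := FiniteDimensional.proper ℝ V
  have hcomp : IsCompact (Metric.sphere (0 : V) 1) := isCompact_sphere _ _
  obtain ⟨t, htS, htc⟩ := hcomp.elim_finite_subcover_image
    (b := Metric.sphere (0 : V) 1) (c := fun v => Metric.ball v (1 / 4 : ℝ))
    (fun v _ => Metric.isOpen_ball)
    (fun v hv => mem_iUnion₂.mpr ⟨v, hv, Metric.mem_ball_self (by norm_num)⟩)
  have hd : ∀ v : V, v ∈ Metric.sphere (0 : V) 1 →
      ∃ g : X →L[ℝ] ℝ, ‖g‖ = 1 ∧ g (v : X) = 1 := by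
    intro v hv
    have hn : ‖(v : X)‖ = 1 := by simpa using hv
    have hne : ‖(v : X)‖ ≠ 0 := by
      rw [hn]; exact one_ne_zero
    obtain ⟨g, hg1, hg2⟩ := exists_dual_vector ℝ (v : X) hne
    exact ⟨g, hg1, by rw [hg2, hn]; simp⟩
  choose! F hF1 hF2 using hd
  refine ⟨insert 0 (htc.1.toFinset.image F), ?_, ?_⟩
  · intro g hg
    rw [Finset.mem_insert, Finset.mem_image] at hg
    rcases hg with rfl | ⟨v, hv, rfl⟩
    · simp
    · exact (hF1 v (htS (htc.1.mem_toFinset.mp hv))).le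
  · intro v hv
    by_cases hv0 : v = 0
    · exact ⟨0, Finset.mem_insert_self _ _, by simp [hv0]⟩
    · have hvn : 0 < ‖v‖ := norm_pos_iff.mpr hv0
      set w : V := ‖v‖⁻¹ • (⟨v, hv⟩ : V) with hw
      have hwS : w ∈ Metric.sphere (0 : V) 1 := by
        rw [mem_sphere_zero_iff_norm, hw, norm_smul, norm_inv, norm_norm]
        exact inv_mul_cancel₀ hvn.ne'
      obtain ⟨u, hut, huw⟩ := mem_iUnion₂.mp (htc.2 hwS)
      refine ⟨F u, Finset.mem_insert_of_mem (Finset.mem_image_of_mem _ (htc.1.mem_toFinset.mpr hut)),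
        ?_⟩
      have h1 : F u (u : X) = 1 := hF2 u (htS hut)
      have h2 : ‖F u ((w : X) - u)‖ ≤ 1 / 4 := by
        have h3 := (F u).le_opNorm ((w : X) - u)
        rw [hF1 u (htS hut), one_mul] at h3
        have h4 : ‖(w : X) - u‖ < 1 / 4 := by
          have := huw
          rw [Metric.mem_ball, dist_eq_norm] at this
          exact_mod_cast this
        linarith
      rw [map_sub, h1, Real.norm_eq_abs, abs_le] at h2
      have h5 : (w : X) = ‖v‖⁻¹ • v := by simp [hw]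
      rw [h5, map_smul, smul_eq_mul] at h2
      have h6 : (3 / 4 : ℝ) ≤ ‖v‖⁻¹ * F u v := by linarith [h2.1]
      have h7 : 3 / 4 * ‖v‖ ≤ F u v := by
        have := mul_le_mul_of_nonneg_right h6 hvn.le
        rwa [mul_comm ‖v‖⁻¹, mul_assoc, inv_mul_cancel₀ hvn.ne', mul_one] at this
      have h8 := le_abs_self (F u v)
      nlinarith

/-- norm from countably many squares of seminorms -/
theorem exists_norm_of_countable {ι : Type*} [Countable ι] (q : ι → X → ℝ) (hq : ∀ i, IsQ (q i))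
    (B : ι → ℝ) (hB : ∀ i x, q i x ≤ B i * ‖x‖ ^ 2) :
    ∃ N : Seminorm ℝ X, (∃ a b : ℝ, 0 < a ∧ 0 < b ∧ ∀ x, a * ‖x‖ ≤ N x ∧ N x ≤ b * ‖x‖) ∧
      ∀ (x : X) (u : ℕ → X), N x = 1 → (∀ n, N (u n) = 1) →
        Tendsto (fun n => N (u n + x)) atTop (𝓝 2) →
        ∀ i, Tendsto (fun n => 2 * q i x + 2 * q i (u n) - q i (x + u n)) atTop (𝓝 0) := by
  classical
  let _ : Encodable ι := Encodable.ofCountable ι
  set w : ι → ℝ := fun i => (1 / 2 : ℝ) ^ (Encodable.encode i) / (|B i| + 1) with hw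
  have hw0 : ∀ i, 0 < w i := fun i => by
    simp only [hw]; positivity
  have hle : ∀ i x, w i * q i x ≤ (1 / 2 : ℝ) ^ (Encodable.encode i) * ‖x‖ ^ 2 := by
    intro i x
    have h1 : q i x ≤ (|B i| + 1) * ‖x‖ ^ 2 := by
      refine (hB i x).trans ?_
      apply mul_le_mul_of_nonneg_right _ (by positivity)
      linarith [le_abs_self (B i)]
    calc w i * q i x ≤ w i * ((|B i| + 1) * ‖x‖ ^ 2) :=
          mul_le_mul_of_nonneg_left h1 (hw0 i).le
      _ = _ := by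
          have h2 : |B i| + 1 ≠ 0 := by positivity
          simp only [hw]
          field_simp
  have hgs : Summable (fun i : ι => (1 / 2 : ℝ) ^ (Encodable.encode i)) :=
    summable_geometric_two_encode
  have hnn : ∀ i x, 0 ≤ w i * q i x := fun i x => mul_nonneg (hw0 i).le ((hq i).nonneg x)
  have hsum : ∀ x, Summable (fun i => w i * q i x) := fun x =>
    Summable.of_nonneg_of_le (fun i => hnn i x) (fun i => hle i x) (hgs.mul_right _)
  set S : X → ℝ := fun x => ∑' i, w i * q i x with hS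
  have hSQ : IsQ S := IsQ.tsum (fun i => (hq i).const_mul (hw0 i).le) hsum
  have hS0 : ∀ x, 0 ≤ S x := hSQ.nonneg
  set T : ℝ := ∑' i : ι, (1 / 2 : ℝ) ^ (Encodable.encode i) with hT
  have hT0 : 0 ≤ T := tsum_nonneg (fun i => by positivity)
  have hS2 : ∀ x, S x ≤ T * ‖x‖ ^ 2 := by
    intro x
    calc S x ≤ ∑' i : ι, (1 / 2 : ℝ) ^ (Encodable.encode i) * ‖x‖ ^ 2 :=
          (hsum x).tsum_le_tsum (fun i => hle i x) (hgs.mul_right _)
      _ = T * ‖x‖ ^ 2 := tsum_mul_right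
  have hnQ : IsQ (fun x : X => ‖x‖ ^ 2) := IsQ.sq (normSeminorm ℝ X)
  set Q : X → ℝ := fun x => ‖x‖ ^ 2 + S x with hQ
  have hQQ : IsQ Q := hnQ.add' hSQ
  obtain ⟨N, hN⟩ := hQQ.exists_seminorm
  have hNsq : ∀ x, N x ^ 2 = Q x := fun x => by
    rw [hN, Real.sq_sqrt (hQQ.nonneg x)]
  refine ⟨N, ⟨1, 1 + T, one_pos, by positivity, fun x => ⟨?_, ?_⟩⟩, ?_⟩
  · rw [one_mul, hN]
    apply Real.le_sqrt_of_sq_le
    simp only [hQ]
    linarith [hS0 x]
  · rw [hN]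
    apply Real.sqrt_le_iff.mpr
    refine ⟨by positivity, ?_⟩
    simp only [hQ]
    have h1 := hS2 x
    have h2 : 0 ≤ T * ‖x‖ ^ 2 := by positivity
    have h3 : 0 ≤ T ^ 2 * ‖x‖ ^ 2 := by positivity
    have h4 : ((1 + T) * ‖x‖) ^ 2 = ‖x‖ ^ 2 + 2 * (T * ‖x‖ ^ 2) + T ^ 2 * ‖x‖ ^ 2 := by ring
    rw [h4]
    linarith
  · intro x u hx hu hlim i
    have hbound : ∀ n, w i * (2 * q i x + 2 * q i (u n) - q i (x + u n)) ≤
        4 - N (u n + x) ^ 2 := by
      intro n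
      have hD : ∀ j, 0 ≤ w j * (2 * q j x + 2 * q j (u n) - q j (x + u n)) := fun j =>
        mul_nonneg (hw0 j).le (by linarith [(hq j).two x (u n)])
      have hDs : HasSum (fun j => w j * (2 * q j x + 2 * q j (u n) - q j (x + u n)))
          (2 * S x + 2 * S (u n) - S (x + u n)) := by
        have h1 := (((hsum x).hasSum.mul_left 2).add ((hsum (u n)).hasSum.mul_left 2)).sub
          (hsum (x + u n)).hasSum
        have h2 : (fun j => w j * (2 * q j x + 2 * q j (u n) - q j (x + u n))) = fun j =>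
            2 * (w j * q j x) + 2 * (w j * q j (u n)) - w j * q j (x + u n) := by
          funext j
          ring
        rw [h2]
        exact h1
      have h2 : w i * (2 * q i x + 2 * q i (u n) - q i (x + u n)) ≤
          2 * S x + 2 * S (u n) - S (x + u n) := le_hasSum hDs i (fun j _ => hD j)
      have h3 := hnQ.two x (u n)
      have h4 : Q x = 1 := by rw [← hNsq, hx]; norm_num
      have h5 : Q (u n) = 1 := by rw [← hNsq, hu n]; norm_num
      have h6 : N (u n + x) ^ 2 = Q (x + u n) := by rw [hNsq, add_comm]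
      rw [h6]
      simp only [hQ] at h4 h5 ⊢
      linarith
    have hlim2 : Tendsto (fun n => (w i)⁻¹ * (4 - N (u n + x) ^ 2)) atTop (𝓝 0) := by
      have := ((tendsto_const_nhds (x := (4 : ℝ))).sub (hlim.pow 2)).const_mul ((w i)⁻¹)
      norm_num at this
      exact this
    refine squeeze_zero (fun n => ?_) (fun n => ?_) hlim2
    · linarith [(hq i).two x (u n)]
    · rw [inv_mul_eq_div, le_div_iff₀ (hw0 i), mul_comm]
      exact hbound n

/-- Deville's argument -/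
theorem deville {I : Type*} [Nonempty I] {A B : I → X → ℝ} (hA : ∀ i, IsQ (A i)) (hB : ∀ i, IsQ (B i))
    (hb : ∀ x, BddAbove (range fun i => A i x + B i x)) {x u : X} {e : ℝ} (he : 0 < e)
    (h : 2 * (⨆ i, A i x + B i x) + 2 * (⨆ i, A i u + B i u) - (⨆ i, A i (x + u) + B i (x + u)) ≤ e) :
    ∃ i, (∀ j, A j x + B j x ≤ A i x + B i x + e) ∧
      2 * B i x + 2 * B i u - B i (x + u) ≤ 2 * e := by
  obtain ⟨i, hi⟩ := exists_lt_of_lt_ciSup (show (⨆ i, A i (x + u) + B i (x + u)) - e <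
    ⨆ i, A i (x + u) + B i (x + u) by linarith)
  have h1 := le_ciSup (hb x) i
  have h2 := le_ciSup (hb u) i
  have h3 := (hA i).two x u
  have h4 := (hB i).two x u
  refine ⟨i, fun j => ?_, by linarith⟩
  have h5 := le_ciSup (hb x) j
  linarith

/-- the quotient seminorm -/
noncomputable def qs (V : Submodule ℝ X) : Seminorm ℝ X :=
  (normSeminorm ℝ (X ⧸ V)).comp V.mkQ

theorem qs_le (V : Submodule ℝ X) {x v : X} (hv : v ∈ V) : qs V x ≤ ‖x - v‖ := by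
  have h1 : V.mkQ x = V.mkQ (x - v) := by
    rw [map_sub, Submodule.mkQ_apply, Submodule.mkQ_apply, (Submodule.Quotient.mk_eq_zero V).2 hv,
      sub_zero]
  have h2 : ‖(Submodule.Quotient.mk (x - v) : X ⧸ V)‖ ≤ ‖x - v‖ := Submodule.Quotient.norm_mk_le V _
  show ‖V.mkQ x‖ ≤ _
  rw [h1]
  exact h2

theorem exists_of_qs (V : Submodule ℝ X) (x : X) {c : ℝ} (hc : qs V x < c) :
    ∃ v ∈ V, ‖x - v‖ < c := by
  have hc' : ‖(Submodule.Quotient.mk x : X ⧸ V)‖ < c := hc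
  obtain ⟨m, hm, hm2⟩ := Submodule.Quotient.norm_mk_lt (S := V) (Submodule.Quotient.mk x : X ⧸ V)
    (sub_pos.2 hc')
  refine ⟨x - m, ?_, ?_⟩
  · have := (Submodule.Quotient.eq V).1 hm
    have h2 := V.neg_mem this
    rwa [neg_sub] at h2
  · rw [sub_sub_cancel]
    linarith

theorem lur_of_local {I : Type*}
    (V : I → Submodule ℝ X) (hV : ∀ i, FiniteDimensional ℝ (V i))
    (φ : ℕ → I → Seminorm ℝ X) (C : ℝ) (hφ : ∀ n i x, φ n i x ≤ C * ‖x‖)
    (hloc : ∀ (x : X) (ε : ℝ), 0 < ε → ∃ n, ∃ η : ℝ, 0 < η ∧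
      ∀ i, (∀ j, φ n j x ≤ φ n i x + η) → ∃ v ∈ V i, ‖x - v‖ ≤ ε) [Nonempty I] :
    ∃ N : Seminorm ℝ X, (∃ a b : ℝ, 0 < a ∧ 0 < b ∧ ∀ x, a * ‖x‖ ≤ N x ∧ N x ≤ b * ‖x‖) ∧
      ∀ (x : X) (u : ℕ → X), N x = 1 → (∀ n, N (u n) = 1) →
        Tendsto (fun n => N (u n + x)) atTop (𝓝 2) →
        Tendsto (fun n => ‖u n - x‖) atTop (𝓝 0) := by
  choose G hG1 hG2 using fun i => @exists_norming X _ _ (V i) (hV i)
  -- index sets
  let J : ℕ → Set I := fun m => {i | (G i).card ≤ m}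
  let ψ : I → X → ℝ := fun i x => qs (V i) x ^ 2 + ∑ g ∈ G i, g x ^ 2
  have hψ : ∀ i, IsQ (ψ i) := fun i => (IsQ.sq _).add' (IsQ.sum _ fun g _ => IsQ.sq_lin g)
  let κ : ℕ → ℝ := fun k => ((k : ℝ) + 1)⁻¹
  have hκ : ∀ k, 0 < κ k := fun k => by positivity
  have hκ1 : ∀ k, κ k ≤ 1 := fun k => inv_le_one_of_one_le₀ (by linarith [k.cast_nonneg (α := ℝ)])
  let q : ℕ × ℕ × ℕ → X → ℝ := fun p x =>
    ⨆ i : J p.2.1, (φ p.1 i x ^ 2 + κ p.2.2 * ψ i x)
  have hψb : ∀ m, ∀ i ∈ J m, ∀ x, ψ i x ≤ (1 + m) * ‖x‖ ^ 2 := by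
    intro m i hi x
    have h1 : qs (V i) x ≤ ‖x‖ := by
      have := qs_le (V i) (x := x) (V i).zero_mem
      rwa [sub_zero] at this
    have h2 : qs (V i) x ^ 2 ≤ ‖x‖ ^ 2 := pow_le_pow_left₀ (apply_nonneg _ _) h1 2
    have h3 : ∑ g ∈ G i, g x ^ 2 ≤ ∑ g ∈ G i, ‖x‖ ^ 2 := by
      apply Finset.sum_le_sum
      intro g hg
      have : |g x| ≤ ‖x‖ := by
        have := g.le_opNorm x
        rw [Real.norm_eq_abs] at this
        refine this.trans ?_
        have := hG1 i g hg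
        nlinarith [norm_nonneg x]
      rw [← sq_abs]
      exact pow_le_pow_left₀ (abs_nonneg _) this 2
    rw [Finset.sum_const, nsmul_eq_mul] at h3
    have h4 : ((G i).card : ℝ) ≤ m := by exact_mod_cast hi
    have h5 : ((G i).card : ℝ) * ‖x‖ ^ 2 ≤ m * ‖x‖ ^ 2 :=
      mul_le_mul_of_nonneg_right h4 (sq_nonneg _)
    show qs (V i) x ^ 2 + ∑ g ∈ G i, g x ^ 2 ≤ _
    linarith
  have hφb : ∀ n i x, φ n i x ^ 2 ≤ C ^ 2 * ‖x‖ ^ 2 := by
    intro n i x
    rw [← mul_pow]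
    exact pow_le_pow_left₀ (apply_nonneg _ _) (hφ n i x) 2
  have hqb : ∀ (p : ℕ × ℕ × ℕ) (x : X), ∀ i ∈ J p.2.1, φ p.1 i x ^ 2 + κ p.2.2 * ψ i x ≤
      (C ^ 2 + (1 + p.2.1)) * ‖x‖ ^ 2 := by
    intro p x i hi
    have h1 := hφb p.1 i x
    have h2 := hψb p.2.1 i hi x
    have h3 : κ p.2.2 * ψ i x ≤ 1 * ψ i x := mul_le_mul_of_nonneg_right (hκ1 _) ((hψ i).nonneg x)
    linarith
  have hbdd : ∀ (p : ℕ × ℕ × ℕ) (x : X),
      BddAbove (range fun i : J p.2.1 => φ p.1 i x ^ 2 + κ p.2.2 * ψ i x) := by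
    intro p x
    exact ⟨_, by rintro _ ⟨i, rfl⟩; exact hqb p x i.1 i.2⟩
  have hq : ∀ p, IsQ (q p) := fun p => IsQ.iSup
    (fun i => (IsQ.sq _).add' ((hψ i).const_mul (hκ _).le)) (hbdd p)
  obtain ⟨N, hN1, hN2⟩ := exists_norm_of_countable q hq (fun p => C ^ 2 + (1 + p.2.1)) (by
    intro p x
    have h0 : 0 ≤ (C ^ 2 + (1 + (p.2.1 : ℝ))) * ‖x‖ ^ 2 := by positivity
    exact Real.iSup_le (fun i : J p.2.1 => hqb p x i.1 i.2) h0)
  refine ⟨N, hN1, fun x u hx hu hxu => ?_⟩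
  have key := hN2 x u hx hu hxu
  rw [Metric.tendsto_atTop]
  intro ε' hε'
  set ε := ε' / 15 with hε
  have hε0 : 0 < ε := by positivity
  obtain ⟨n, η, hη, hloc⟩ := hloc x ε hε0
  have hbφ : BddAbove (range fun i => φ n i x) := ⟨C * ‖x‖, by rintro _ ⟨i, rfl⟩; exact hφ n i x⟩
  set Φ := ⨆ i, φ n i x with hΦ
  obtain ⟨i₀, hi₀⟩ := exists_lt_of_lt_ciSup (show Φ - η / 4 < ⨆ i, φ n i x by
    rw [← hΦ]; linarith)
  set m := (G i₀).card with hm
  have hi₀J : i₀ ∈ J m := le_refl (G i₀).card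
  -- choose k
  set τ := η ^ 2 / 64 with hτ
  have hτ0 : 0 < τ := by positivity
  obtain ⟨k, hk⟩ := exists_nat_gt ((1 + m) * ‖x‖ ^ 2 / τ)
  have hkτ : κ k * ((1 + m) * ‖x‖ ^ 2) ≤ τ := by
    have hk1 : (0 : ℝ) < k + 1 := by positivity
    show ((k : ℝ) + 1)⁻¹ * _ ≤ τ
    rw [inv_mul_le_iff₀ hk1]
    rw [div_lt_iff₀ hτ0] at hk
    nlinarith
  set δ := min τ (κ k * ε ^ 2 / 2) with hδ
  have hκk := hκ k
  have hδ0 : 0 < δ := lt_min hτ0 (by positivity)
  have hev := (key (n, m, k)).eventually (gt_mem_nhds hδ0)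
  rw [eventually_atTop] at hev
  obtain ⟨n₀, hn₀⟩ := hev
  refine ⟨n₀, fun j hj => ?_⟩
  have h1 := (hn₀ j hj).le
  have : Nonempty (J m) := ⟨⟨i₀, hi₀J⟩⟩
  obtain ⟨⟨i, hiJ⟩, hi1, hi2⟩ := deville (I := J m) (A := fun i x => φ n i x ^ 2)
    (B := fun i x => κ k * ψ i x) (fun i => IsQ.sq _) (fun i => (hψ i).const_mul hκk.le)
    (hbdd (n, m, k)) hδ0 h1
  simp only at hi1 hi2
  -- near maximality
  have hδτ : δ ≤ τ := min_le_left _ _
  have hδκ : δ ≤ κ k * ε ^ 2 / 2 := min_le_right _ _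
  have h2 : φ n i₀ x ^ 2 ≤ φ n i x ^ 2 + 2 * τ := by
    have := hi1 ⟨i₀, hi₀J⟩
    simp only at this
    have h3 := hψb m i hiJ x
    have h4 : κ k * ψ i x ≤ κ k * ((1 + m) * ‖x‖ ^ 2) := mul_le_mul_of_nonneg_left h3 hκk.le
    have h5 : 0 ≤ κ k * ψ i₀ x := mul_nonneg hκk.le ((hψ i₀).nonneg x)
    linarith
  have h3 : Φ - η ≤ φ n i x := by
    have h0 : 0 ≤ φ n i x := apply_nonneg _ _
    have h0' : 0 ≤ φ n i₀ x := apply_nonneg _ _
    by_contra hcon
    push Not at hcon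
    have h4 : φ n i x + η / 4 < φ n i₀ x := by linarith
    have h5 : (φ n i x + η / 4) ^ 2 ≤ φ n i₀ x ^ 2 := pow_le_pow_left₀ (by positivity) h4.le 2
    nlinarith
  obtain ⟨v, hv, hxv⟩ := hloc i (fun j => by
    have := le_ciSup hbφ j
    linarith)
  -- consequences of convexity
  have h4 : 2 * ψ i x + 2 * ψ i (u j) - ψ i (x + u j) ≤ ε ^ 2 := by
    have h5 : κ k * (2 * ψ i x + 2 * ψ i (u j) - ψ i (x + u j)) ≤ κ k * ε ^ 2 := by linarith
    exact le_of_mul_le_mul_left h5 hκk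
  have hQ : 2 * qs (V i) x ^ 2 + 2 * qs (V i) (u j) ^ 2 - qs (V i) (x + u j) ^ 2 ≤ ε ^ 2 ∧
      ∀ g ∈ G i, (g x - g (u j)) ^ 2 ≤ ε ^ 2 := by
    have hS : ∑ g ∈ G i, (g x - g (u j)) ^ 2 =
        2 * ∑ g ∈ G i, g x ^ 2 + 2 * ∑ g ∈ G i, g (u j) ^ 2 - ∑ g ∈ G i, g (x + u j) ^ 2 := by
      rw [Finset.mul_sum, Finset.mul_sum, ← Finset.sum_add_distrib, ← Finset.sum_sub_distrib]
      apply Finset.sum_congr rfl
      intro g _
      rw [map_add]; ring
    have hnn : 0 ≤ ∑ g ∈ G i, (g x - g (u j)) ^ 2 := Finset.sum_nonneg fun _ _ => sq_nonneg _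
    have hqq := (IsQ.sq (qs (V i))).two x (u j)
    have h4' : 2 * (qs (V i) x ^ 2 + ∑ g ∈ G i, g x ^ 2) +
      2 * (qs (V i) (u j) ^ 2 + ∑ g ∈ G i, g (u j) ^ 2) -
      (qs (V i) (x + u j) ^ 2 + ∑ g ∈ G i, g (x + u j) ^ 2) ≤ ε ^ 2 := h4
    constructor
    · linarith
    · intro g hg
      have := Finset.single_le_sum (f := fun g : X →L[ℝ] ℝ => (g x - g (u j)) ^ 2)
        (fun _ _ => sq_nonneg _) hg
      linarith
  obtain ⟨hQ1, hQ2⟩ := hQ
  have hqx : qs (V i) x ≤ ε := (qs_le (V i) hv).trans hxv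
  have hqu : qs (V i) (u j) ≤ 2 * ε := by
    have h5 : qs (V i) (x + u j) ≤ qs (V i) x + qs (V i) (u j) := map_add_le_add _ _ _
    have h6 : qs (V i) (x + u j) ^ 2 ≤ (qs (V i) x + qs (V i) (u j)) ^ 2 :=
      pow_le_pow_left₀ (apply_nonneg _ _) h5 2
    have h7 : (qs (V i) (u j) - qs (V i) x) ^ 2 ≤ ε ^ 2 := by nlinarith
    have h8 := abs_le_of_sq_le_sq' h7 hε0.le
    linarith [h8.2]
  have hq3 : qs (V i) (u j - x) < 4 * ε := by
    have : qs (V i) (u j - x) ≤ qs (V i) (u j) + qs (V i) x := map_sub_le_add _ _ _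
    linarith
  obtain ⟨w, hw, hwn⟩ := exists_of_qs (V i) (u j - x) hq3
  obtain ⟨g, hg, hgw⟩ := hG2 i w hw
  have h9 : |g (u j - x)| ≤ ε := by
    rw [map_sub]
    have := abs_le_of_sq_le_sq' (hQ2 g hg) hε0.le
    rw [abs_le]
    constructor <;> linarith [this.1, this.2]
  have h10 : |g (u j - x - w)| ≤ 4 * ε := by
    have := g.le_opNorm (u j - x - w)
    rw [Real.norm_eq_abs] at this
    have h11 := hG1 i g hg
    nlinarith [norm_nonneg (u j - x - w)]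
  have h11 : |g w| ≤ 5 * ε := by
    have : g w = g (u j - x) - g (u j - x - w) := by rw [← map_sub]; congr 1; abel
    rw [this]
    exact (abs_sub _ _).trans (by linarith)
  have h12 : ‖u j - x‖ ≤ ‖u j - x - w‖ + ‖w‖ := by
    have : u j - x = (u j - x - w) + w := by abel
    conv_lhs => rw [this]
    exact norm_add_le _ _
  rw [Real.dist_eq, sub_zero, abs_of_nonneg (norm_nonneg _)]
  have : ‖u j - x‖ < 15 * ε := by linarith
  rw [hε] at this
  linarith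

end Pool.Agent.Helper90.Free
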