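import Pool.Agent.Helper90.Free.Base

set_option autoImplicit false
set_option linter.unusedSectionVars false
set_option linter.unusedVariables false

open Set Filter Topology

namespace Pool.Agent.Helper90.Free


variable {M E : Type*} [MetricSpace M] [Zero M] [NormedAddCommGroup E] [NormedSpace ℝ E]

section

variable {δ : M → E}

/-- representation by molecules -/
theorem IsFree.exists_rep (hδ : IsFree δ) {h : ℝ} (hh : 0 < h) (x : E) {η : ℝ} (hη : 0 < η) :
    ∃ (n : ℕ) (a : Fin n → ℝ) (u v : Fin n → M), (∀ k, 0 ≤ a k) ∧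
      ∑ k, a k ≤ NN δ h x + η ∧ ‖x - ∑ k, a k • mol δ h (u k) (v k)‖ ≤ η := by
  classical
  set N := NN δ h x with hN
  have hN0 : 0 ≤ N := hδ.NN_nonneg hh.le x
  set L := N + η with hL
  have hL0 : 0 < L := by linarith
  set B : Set E := convexHull ℝ (range fun p : M × M => mol δ h p.1 p.2) with hB
  have hmolB : ∀ u v, mol δ h u v ∈ B := fun u v => subset_convexHull ℝ _ ⟨(u, v), rfl⟩
  have hclaim : L⁻¹ • x ∈ closure B := by
    by_contra hcon
    obtain ⟨f, c, hf1, hf2⟩ := geometric_hahn_banach_closed_point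
      ((convex_convexHull ℝ _).closure) isClosed_closure hcon
    have hc : 0 < c := by
      have := hf1 (mol δ h 0 0) (subset_closure (hmolB 0 0))
      rw [mol_self, map_zero] at this
      exact this
    have hg : (c⁻¹ • f) ∈ LL δ h := by
      intro u v
      rcases eq_or_ne u v with rfl | huv
      · rw [sub_self, dist_self, om_zero hh.le]
      have h1 := om_pos hh.le (dist_pos.2 huv)
      have h2 := hf1 (mol δ h u v) (subset_closure (hmolB u v))
      unfold mol at h2
      rw [map_smul, smul_eq_mul, map_sub, inv_mul_lt_iff₀ h1] at h2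
      have h3 : (c⁻¹ • f) (δ u) - (c⁻¹ • f) (δ v) = c⁻¹ * (f (δ u) - f (δ v)) := by
        show c⁻¹ * f (δ u) - c⁻¹ * f (δ v) = _
        ring
      rw [h3, inv_mul_le_iff₀ hc]
      linarith
    have h4 := hδ.le_NN hg x
    have h5 : (c⁻¹ • f) x = c⁻¹ * f x := rfl
    rw [h5, inv_mul_le_iff₀ hc] at h4
    rw [map_smul, smul_eq_mul, lt_inv_mul_iff₀ hL0] at hf2
    nlinarith
  obtain ⟨b, hbB, hb⟩ := Metric.mem_closure_iff.1 hclaim (η / L) (by positivity)
  rw [hB, mem_convexHull_iff_exists_fintype] at hbB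
  obtain ⟨ι, _, w, z, hw0, hw1, hz, hwz⟩ := hbB
  choose p hp using hz
  let e : Fin (Fintype.card ι) ≃ ι := (Fintype.equivFin ι).symm
  refine ⟨Fintype.card ι, fun k => L * w (e k), fun k => (p (e k)).1, fun k => (p (e k)).2,
    fun k => mul_nonneg hL0.le (hw0 _), ?_, ?_⟩
  · rw [← Finset.mul_sum, Equiv.sum_comp e w, hw1, mul_one]
  · have h6 : ∑ k, (L * w (e k)) • mol δ h (p (e k)).1 (p (e k)).2 = L • b := by
      rw [Equiv.sum_comp e (fun i => (L * w i) • mol δ h (p i).1 (p i).2), ← hwz, Finset.smul_sum]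
      refine Finset.sum_congr rfl (fun i _ => ?_)
      rw [mul_smul, ← hp i]
    rw [h6]
    have h7 : x - L • b = L • (L⁻¹ • x - b) := by
      rw [smul_sub, smul_inv_smul₀ hL0.ne']
    rw [h7, norm_smul, Real.norm_of_nonneg hL0.le, ← dist_eq_norm]
    have h8 : L * dist (L⁻¹ • x) b ≤ L * (η / L) := mul_le_mul_of_nonneg_left hb.le hL0.le
    rw [mul_div_cancel₀ _ hL0.ne'] at h8
    exact h8

end

end Pool.Agent.Helper90.Free
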